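import Mathlib
import Pool.Agent.H525Z.Per0

set_option autoImplicit false
open NumberField NumberField.ComplexEmbedding Module
open scoped ComplexConjugate

namespace Pool.Agent.H157Z.PerCtx

open Pool.Agent.H525Z.Per

lemma round_sym (K : Type) [Field K] [NumberField K] : ∃ R : ℝ, 1 ≤ R ∧ ∀ v : (K →+* ℂ) → ℂ,
    (∀ φ, v (conjugate φ) = conj (v φ)) → ∃ x : K, IsIntegral ℤ x ∧ ∀ φ, ‖φ x - v φ‖ ≤ R := by
  classical
  let b := canonicalEmbedding.latticeBasis K
  have hb : ∀ i φ, b i φ = φ (integralBasis K i) := fun i φ => by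
    simp only [b, canonicalEmbedding.latticeBasis_apply]; rfl
  refine ⟨1 + ∑ i, ‖b i‖, by simp [Finset.sum_nonneg], fun v hv => ?_⟩
  have h1 : ∀ φ, v φ = ∑ i, b.repr v i * φ (integralBasis K i) := fun φ => by
    conv_lhs => rw [← b.sum_repr v]
    simp [hb]
  have h2 : ∑ i, conj (b.repr v i) • b i = v := by
    funext φ
    have := congrArg conj (h1 (conjugate φ))
    rw [hv, Complex.conj_conj] at this
    rw [this]
    simp [hb]
  have h3 : ∀ i, ((b.repr v i).re : ℂ) = b.repr v i := fun i => by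
    rw [← Complex.conj_eq_iff_re]
    conv_rhs => rw [← h2, b.repr_sum_self]
  refine ⟨∑ i, ⌊(b.repr v i).re⌋ • integralBasis K i, IsIntegral.sum _ fun i _ =>
    IsIntegral.smul _ (by rw [integralBasis_apply]; exact RingOfIntegers.isIntegral_coe _),
    fun φ => ?_⟩
  rw [h1, map_sum, ← Finset.sum_sub_distrib]
  refine (norm_sum_le_of_le _ fun i _ => ?_).trans (le_add_of_nonneg_left zero_le_one)
  rw [map_zsmul, zsmul_eq_mul, ← sub_mul, norm_mul, ← hb, ← h3]
  have h4 : ‖((⌊(b.repr v i).re⌋ : ℂ)) - ((b.repr v i).re : ℂ)‖ ≤ 1 := by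
    rw [← Complex.ofReal_intCast, ← Complex.ofReal_sub, Complex.norm_real, Real.norm_eq_abs, abs_le]
    constructor <;> linarith [Int.floor_le (b.repr v i).re, Int.lt_floor_add_one (b.repr v i).re]
  simpa using mul_le_mul h4 (norm_le_pi_norm (b i) φ) (norm_nonneg _) zero_le_one

lemma ctx_of (K : Type) [Field K] [NumberField K] (π : K →+* ℂ) (hπ : conjugate π ≠ π) (γ : K)
    (hγ : IsIntegral ℤ γ) (h1 : 1 < ‖π γ‖)
    (h2 : ∀ φ : K →+* ℂ, φ ≠ π → φ ≠ conjugate π → ‖φ γ‖ < ‖π γ‖) :
    ∃ X : Ctx K ((K →+* ℂ) → ℂ), X.π = π ∧ X.γ = γ := by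
  classical
  obtain ⟨R, hR, hv⟩ := round_sym K
  let p : (K →+* ℂ) → Prop := fun φ => φ = π ∨ φ = conjugate π
  have pc : ∀ φ, p (conjugate φ) ↔ p φ := fun φ => by
    simp only [p, conjugate, star_inj]
    exact ⟨fun h => h.symm.imp id fun h => by rw [← h, star_star],
      fun h => h.symm.imp (fun h => by rw [h, star_star]) id⟩
  let m : (K →+* ℂ) → ℂ := fun φ => if p φ then 0 else φ γ
  have hm : ‖m‖ < ‖π γ‖ := (pi_norm_lt_iff (by linarith)).mpr fun φ => by
    simp only [m]
    split_ifs with h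
    · simp only [norm_zero]; linarith
    · exact h2 φ (fun e => h (Or.inl e)) fun e => h (Or.inr e)
  refine ⟨{
    π := π, γ := γ
    σ := ⟨⟨fun x φ => if p φ then 0 else φ x, by funext φ; simp⟩,
      fun x y => by funext φ; simp only [Pi.add_apply]; split_ifs <;> simp⟩
    M := (integralClosure ℤ K).toSubring.toAddSubgroup
    B := LinearMap.mulLeft ℝ m
    S := { carrier := {e | (∀ φ, e (conjugate φ) = conj (e φ)) ∧ ∀ φ, p φ → e φ = 0}
           add_mem' := fun ha hb => ⟨fun φ => by simp [ha.1, hb.1], fun φ h => by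
             simp [ha.2 φ h, hb.2 φ h]⟩
           zero_mem' := by simp
           smul_mem' := fun t e he => ⟨fun φ => by simp [he.1], fun φ h => by simp [he.2 φ h]⟩ }
    β := ‖m‖, R₀ := R, hγ := h1
    hM := fun x hx => hγ.mul hx
    hB := fun x => by
      funext φ
      simp only [AddMonoidHom.coe_mk, ZeroHom.coe_mk, LinearMap.mulLeft_apply, Pi.mul_apply, m]
      split_ifs <;> simp
    hβ := fun e => norm_mul_le _ _
    hβ0 := norm_nonneg _, hβ1 := hm
    hS := fun x => ⟨fun φ => by
      simp only [AddMonoidHom.coe_mk, ZeroHom.coe_mk, pc]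
      split_ifs <;> simp, fun φ h => by simp [h]⟩
    hR₀ := hR
    hfin := fun C => (Embeddings.finite_of_norm_le K ℂ C).subset fun x hx => ⟨hx.1, fun φ => ?_⟩
    hco := fun z e he => ?_ }, rfl, rfl⟩
  · by_cases h : p φ
    · rcases h with rfl | rfl
      · exact hx.2.1
      · simpa using hx.2.1
    · have := (norm_le_pi_norm _ φ).trans hx.2.2
      simpa [h] using this
  · obtain ⟨x, hx, h⟩ := hv (fun φ => if φ = π then z else if φ = conjugate π then conj z else e φ)
      fun φ => by
        by_cases a : φ = π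
        · subst a; simp [hπ]
        · by_cases a' : φ = conjugate π
          · subst a'; simp [hπ]
          · have : ¬ p (conjugate φ) := fun h => ((pc φ).mp h).elim a a'
            simp only [p, not_or] at this
            simp [a, a', this.1, this.2, he.1 φ]
    refine ⟨x, hx, by simpa [norm_sub_rev] using h π, (pi_norm_le_iff_of_nonneg (by linarith)).mpr
      fun φ => ?_⟩
    by_cases a : p φ
    · simp [a, he.2 φ a]; linarith
    · have := h φ
      simp only [p, not_or] at a
      simpa [p, a.1, a.2] using this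

theorem exists_ctx (c : ℂ) (hc : IsIntegral ℤ c) (h1 : 1 < ‖c‖)
    (h2 : ∀ μ : ℂ, Polynomial.aeval μ (minpoly ℚ c) = 0 → μ ≠ c → μ ≠ (starRingEnd ℂ) c →
      ‖μ‖ < ‖c‖) :
    ∃ (K E : Type) (_ : Field K) (_ : NormedAddCommGroup E) (_ : NormedSpace ℝ E)
      (X : Ctx K E), X.π X.γ = c := by
  obtain ⟨w, hw, hw1, hw2⟩ : ∃ w : ℂ, IsIntegral ℤ w ∧ conj w ≠ w ∧
      (w = c ∨ (w = Complex.I ∧ conj c = c)) := by
    by_cases h : conj c = c
    · refine ⟨Complex.I, ?_, by simp [Complex.ext_iff]; norm_num, Or.inr ⟨rfl, h⟩⟩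
      exact IsIntegral.of_pow (n := 2) (by norm_num) (by
        rw [Complex.I_sq]; exact isIntegral_one.neg)
    · exact ⟨c, hc, h, Or.inl rfl⟩
  let K := IntermediateField.adjoin ℚ ({c, w} : Set ℂ)
  have : FiniteDimensional ℚ K := IntermediateField.finiteDimensional_adjoin fun x hx => by
    rcases hx with rfl | rfl
    exacts [hc.tower_top, hw.tower_top]
  have : NumberField K := ⟨⟩
  let γ : K := ⟨c, IntermediateField.subset_adjoin _ _ (by simp)⟩
  let ω : K := ⟨w, IntermediateField.subset_adjoin _ _ (by simp)⟩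
  let π : K →+* ℂ := K.val.toRingHom
  have ext : ∀ φ ψ : K →+* ℂ, φ γ = ψ γ → φ ω = ψ ω → φ = ψ := fun φ ψ a b => by
    have : φ.toRatAlgHom = ψ.toRatAlgHom := IntermediateField.adjoin_algHom_ext ℚ fun x hx => by
      rcases hx with rfl | rfl
      exacts [a, b]
    exact RingHom.ext fun x => DFunLike.congr_fun this x
  have hγ : IsIntegral ℤ γ := (isIntegral_algHom_iff (K.val.restrictScalars ℤ)
    Subtype.val_injective).mp hc
  obtain ⟨X, a, b⟩ := ctx_of K π (fun h => hw1 (DFunLike.congr_fun h ω)) γ hγ h1 fun φ a b => by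
    have r : Polynomial.aeval (φ γ) (minpoly ℚ c) = 0 := by
      have e : Polynomial.aeval γ (minpoly ℚ c) = 0 := by
        apply Subtype.val_injective
        exact (Polynomial.aeval_algHom_apply K.val γ (minpoly ℚ c)).symm.trans (minpoly.aeval ℚ c)
      have := Polynomial.aeval_algHom_apply φ.toRatAlgHom γ (minpoly ℚ c)
      rw [e, map_zero] at this; exact this
    rcases hw2 with h | ⟨h, h'⟩
    · have e : ω = γ := Subtype.ext h
      exact h2 _ r (fun h => a (ext _ _ h (e ▸ h))) fun h => b (ext _ _ h (e ▸ h))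
    · have key : φ γ ≠ c := fun e => by
        have : φ ω ^ 2 = Complex.I ^ 2 := by
          rw [← map_pow, show ω ^ 2 = -1 from Subtype.ext (by simp [ω, h])]; simp
        rcases sq_eq_sq_iff_eq_or_eq_neg.mp this with t | t
        · exact a (ext _ _ e (t.trans h.symm))
        · exact b (ext _ _ (e.trans h'.symm) (t.trans (by simp [π, ω, h])))
      exact h2 _ r key (by rwa [h'])
  exact ⟨K, _, inferInstance, inferInstance, inferInstance, X, by rw [a, b]; rfl⟩

end Pool.Agent.H157Z.PerCtx
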